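import Pool.Agent.Lib.MP_7f190d_al.Basic

/-!
# MP_7f190d_al, module I-B: I4, I5, I6
-/

set_option autoImplicit false

namespace Pool.Agent.Lib.MP_7f190d_al

namespace GMet

section orbit

variable {G V : Type} [Group G] [MulAction G V] {M : GMet V}

/-- distances in an orbit of a cyclic group -/
lemma d_zpow (hI : Iso G M) (g : G) (x : V) (i j : ℤ) :
    M.d (g ^ i • x) (g ^ j • x) = M.d x (g ^ (j - i) • x) := by
  have h := hI (g ^ i) x (g ^ (j - i) • x)
  rw [smul_smul, ← zpow_add] at h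
  rw [show i + (j - i) = j by ring] at h
  exact h

lemma d_zpow_neg (hI : Iso G M) (g : G) (x : V) (i : ℤ) :
    M.d x (g ^ (-i) • x) = M.d x (g ^ i • x) := by
  have h := d_zpow hI g x i 0
  rw [zpow_zero, one_smul, zero_sub] at h
  rw [← h, M.symm]

lemma d_pow (hI : Iso G M) (g : G) (x : V) (i j : ℕ) :
    M.d (g ^ i • x) (g ^ (i + j) • x) = M.d x (g ^ j • x) := by
  rw [pow_add, ← smul_smul]
  exact hI _ _ _

lemma d_pow_le (hI : Iso G M) (g : G) (x : V) (i j : ℕ) :
    M.d x (g ^ (i + j) • x) ≤ M.d x (g ^ i • x) + M.d x (g ^ j • x) := by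
  have h := M.tri x (g ^ i • x) (g ^ (i + j) • x)
  rw [d_pow hI] at h
  exact h

lemma d_pow_mul_le (hI : Iso G M) (g : G) (x : V) (j k : ℕ) :
    M.d x (g ^ (j * k) • x) ≤ j * M.d x (g ^ k • x) := by
  induction j with
  | zero => simp [M.self]
  | succ j ih =>
    have h := d_pow_le hI g x (j * k) k
    rw [show (j + 1) * k = j * k + k by ring]
    calc _ ≤ _ := h
      _ ≤ _ := by
        have : (j + 1) * M.d x (g ^ k • x) = j * M.d x (g ^ k • x) + M.d x (g ^ k • x) := by ring
        omega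

end orbit

/-- I4 -/
theorem I4 : I4Statement := by
  intro G V _ _ M δ hM hI g y s hs h x k
  -- growth for `y`
  have grow : ∀ k : ℕ, M.d y (g ^ k • y) + s ≤ M.d y (g ^ (k + 1) • y) := by
    intro k
    induction k with
    | zero =>
      have h2 := d_pow_le hI g y 1 1
      simp only [pow_one, one_add_one_eq_two] at h2
      simp only [pow_zero, one_smul, zero_add, pow_one, M.self]
      omega
    | succ k ih =>
      have h4 := hM y (g • y) (g ^ 2 • y) (g ^ (k + 2) • y)
      have e1 : M.d (g • y) (g ^ (k + 2) • y) = M.d y (g ^ (k + 1) • y) := by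
        have := d_pow hI g y 1 (k + 1)
        rw [pow_one, show 1 + (k + 1) = k + 2 by ring] at this
        exact this
      have e2 : M.d (g ^ 2 • y) (g ^ (k + 2) • y) = M.d y (g ^ k • y) := by
        have := d_pow hI g y 2 k
        rw [show 2 + k = k + 2 by ring] at this
        exact this
      have e3 : M.d (g • y) (g ^ 2 • y) = M.d y (g • y) := by
        have := d_pow hI g y 1 1
        simp only [pow_one, one_add_one_eq_two] at this
        exact this
      rw [show k + 1 + 1 = k + 2 by ring]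
      omega
  have growk : ∀ k : ℕ, k * s ≤ M.d y (g ^ k • y) := by
    intro k
    induction k with
    | zero => simp
    | succ k ih =>
      have := grow k
      have : (k + 1) * s = k * s + s := by ring
      omega
  by_contra hcon
  push Not at hcon
  set j := 2 * M.d x y + 1 with hj
  have h1 := growk (j * k)
  have h2 : M.d y (g ^ (j * k) • y) ≤ 2 * M.d x y + M.d x (g ^ (j * k) • x) := by
    have t1 := M.tri y x (g ^ (j * k) • y)
    have t2 := M.tri x (g ^ (j * k) • x) (g ^ (j * k) • y)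
    have t3 := hI (g ^ (j * k)) x y
    have t4 := M.symm y x
    omega
  have h3 := d_pow_mul_le hI g x j k
  have h4 : j * (M.d x (g ^ k • x) + 1) ≤ j * (k * s) := Nat.mul_le_mul_left _ hcon
  have h5 : j * k * s = j * (k * s) := by ring
  have h6 : j * (M.d x (g ^ k • x) + 1) = j * M.d x (g ^ k • x) + j := by ring
  omega

lemma I5_first {G V : Type} [Group G] [MulAction G V] (M : GMet V) (δ : ℕ)
    (hM : M.Hyp δ) (hI : Iso G M) (g : G) (m₀ : ℕ) (hmin : ∀ y, m₀ ≤ M.d y (g • y))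
    (hm : 4 * δ + 1 < m₀) (y : V) (hy : M.d y (g • y) = m₀) :
    2 * m₀ ≤ M.d y (g ^ 2 • y) + 4 * δ := by
  obtain ⟨p, hp, hdp⟩ := M.exists_pt y (g • y) (m₀ / 2) (by omega)
  have hp' : M.d y p + M.d p (g • y) = M.d y (g • y) := hp
  have h1 := hM (g • p) y p (g • y)
  have h2 := hM y (g • y) (g • p) (g ^ 2 • y)
  have i1 := hI g p y
  have i2 := hI g y p
  have i3 := hI g p (g • y)
  have i4 := hI g y (g • y)
  rw [smul_smul, ← sq] at i3 i4
  have s1 := M.symm (g • p) p
  have s2 := M.symm (g • p) y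
  have s3 := M.symm p y
  have s4 := M.symm (g • p) (g • y)
  have := hmin p
  omega

/-- I5 -/
theorem I5 : I5Statement := by
  intro G V _ _ M δ hM hI g m₀ hmin
  refine ⟨fun hm y hy => I5_first M δ hM hI g m₀ hmin hm y hy, ?_⟩
  intro x k
  -- the true minimum
  classical
  have hex : ∃ m, ∃ y, M.d y (g • y) = m := ⟨_, x, rfl⟩
  set m := Nat.find hex with hmdef
  obtain ⟨y, hy⟩ : ∃ y, M.d y (g • y) = m := Nat.find_spec hex
  have hmin' : ∀ y, m ≤ M.d y (g • y) := fun y => Nat.find_min' hex ⟨y, rfl⟩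
  have hm0 : m₀ ≤ m := by rw [← hy]; exact hmin y
  by_cases hsmall : m ≤ 6 * δ + 1
  · have : k * m₀ ≤ k * (6 * δ + 1) := Nat.mul_le_mul_left _ (by omega)
    omega
  · have h1 := I5_first M δ hM hI g m hmin' (by omega) y hy
    have h2 := I4 G V M δ hM hI g y (m - 6 * δ) (by omega) (by omega) x k
    have h3 : k * m = k * (m - 6 * δ) + k * (6 * δ) := by
      rw [← mul_add]; congr 1; omega
    have h4 : k * m₀ ≤ k * m := Nat.mul_le_mul_left _ hm0
    have h5 : k * (6 * δ + 1) = k * (6 * δ) + k := by ring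
    omega

/-- the bounded case of I6 -/
lemma I6_bounded {G V : Type} [Group G] [MulAction G V] (M : GMet V) (δ : ℕ)
    (hM : M.Hyp δ) (hI : Iso G M) (g : G) (x : V) (B : ℕ)
    (hB : ∀ k : ℤ, M.d x (g ^ k • x) ≤ B) :
    ∃ p, ∀ k : ℤ, M.d p (g ^ k • p) ≤ 4 * δ + 1 := by
  classical
  have hex : ∃ r, ∃ y, ∀ k : ℤ, M.d y (g ^ k • x) ≤ r := ⟨B, x, hB⟩
  set r₀ := Nat.find hex with hr
  obtain ⟨y, hy⟩ : ∃ y, ∀ k : ℤ, M.d y (g ^ k • x) ≤ r₀ := Nat.find_spec hex
  refine ⟨y, fun k => ?_⟩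
  set y' := g ^ k • y with hy'def
  have hy' : ∀ i : ℤ, M.d y' (g ^ i • x) ≤ r₀ := by
    intro i
    have h := hI (g ^ k) y (g ^ (i - k) • x)
    rw [smul_smul, ← zpow_add, show k + (i - k) = i by ring] at h
    rw [hy'def, h]
    exact hy _
  by_contra hcon
  push Not at hcon
  obtain ⟨m, hm, hdm⟩ := M.exists_pt y y' (M.d y y' / 2) (by omega)
  have hm' : M.d y m + M.d m y' = M.d y y' := hm
  have hlt : r₀ - 1 < r₀ := by
    rcases Nat.eq_zero_or_pos r₀ with h0 | h0
    · have h1 := hy 0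
      have h2 := hy' 0
      have h3 := M.tri y (g ^ (0:ℤ) • x) y'
      have h4 := M.symm (g ^ (0:ℤ) • x) y'
      omega
    · omega
  refine Nat.find_min hex hlt ⟨m, fun i => ?_⟩
  have h4 := hM m y (g ^ i • x) y'
  have a1 := hy i
  have a2 := hy' i
  have s1 := M.symm m y
  have s2 := M.symm (g ^ i • x) y'
  have s3 := M.symm y (g ^ i • x)
  omega

/-- I6 -/
theorem I6 : I6Statement := by
  intro G V _ _ M δ hM hI g x T m hTm
  classical
  by_cases hbdd : ∃ B, ∀ k : ℤ, M.d x (g ^ k • x) ≤ B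
  · obtain ⟨B, hB⟩ := hbdd
    obtain ⟨p, hp⟩ := I6_bounded M δ hM hI g x B hB
    exact ⟨p, fun k _ => by have := hp k; omega⟩
  push Not at hbdd
  rcases Nat.eq_zero_or_pos T with hT0 | hT
  · refine ⟨x, fun k hk => ?_⟩
    have : k = 0 := by omega
    subst this
    simp [M.self]
  -- linear upper bound for the displacement of the powers
  have hmpos : 0 < m := by omega
  obtain ⟨C, hC⟩ : ∃ C, ∀ r < m, M.d x (g ^ r • x) ≤ C :=
    ⟨(Finset.range m).sup fun r => M.d x (g ^ r • x), fun r hr =>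
      Finset.le_sup (f := fun r => M.d x (g ^ r • x)) (Finset.mem_range.2 hr)⟩
  have hup : ∀ n : ℕ, T * M.d x (g ^ n • x) ≤ n + T * C := by
    intro n
    have h1 := d_pow_le hI g x (n / m * m) (n % m)
    rw [Nat.div_add_mod' n m] at h1
    have h2 := d_pow_mul_le hI g x (n / m) m
    have h3 := hC (n % m) (Nat.mod_lt _ hmpos)
    have h4 : T * (n / m * M.d x (g ^ m • x)) ≤ n := by
      calc T * (n / m * M.d x (g ^ m • x)) = n / m * (T * M.d x (g ^ m • x)) := by ring
        _ ≤ n / m * m := Nat.mul_le_mul_left _ hTm.le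
        _ ≤ n := Nat.div_mul_le_self n m
    calc T * M.d x (g ^ n • x) ≤ T * (n / m * M.d x (g ^ m • x) + C) :=
          Nat.mul_le_mul_left _ (by omega)
      _ = T * (n / m * M.d x (g ^ m • x)) + T * C := by ring
      _ ≤ n + T * C := by omega
  have hupz : ∀ k : ℤ, T * M.d x (g ^ k • x) ≤ k.natAbs + T * C := by
    intro k
    rcases Int.natAbs_eq k with h | h
    · have := hup k.natAbs
      rw [← zpow_natCast, ← h] at this
      exact this
    · have := hup k.natAbs
      rw [← zpow_natCast, ← d_zpow_neg hI, ← h] at this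
      exact this
  -- a large almost local maximum
  set B := 2 + ((Finset.Icc (-(T:ℤ)) T).sup fun k => M.d x (g ^ k • x)) with hBdef
  have hBk : ∀ k : ℤ, k.natAbs ≤ T → M.d x (g ^ k • x) + 2 ≤ B := by
    intro k hk
    have := Finset.le_sup (f := fun k : ℤ => M.d x (g ^ k • x)) (s := Finset.Icc (-(T:ℤ)) T)
      (b := k) (by rw [Finset.mem_Icc]; omega)
    omega
  obtain ⟨N, hN1, hN2⟩ : ∃ N : ℤ, B ≤ M.d x (g ^ N • x) ∧
      ∀ k : ℤ, k.natAbs ≤ T → M.d x (g ^ (N + k) • x) ≤ M.d x (g ^ N • x) + 1 := by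
    by_contra hcon
    push Not at hcon
    obtain ⟨N₀, hN₀⟩ := hbdd B
    have hseq : ∀ i : ℕ, ∃ N : ℤ, N.natAbs ≤ N₀.natAbs + i * T ∧
        B + 2 * i ≤ M.d x (g ^ N • x) := by
      intro i
      induction i with
      | zero => exact ⟨N₀, by omega, by omega⟩
      | succ i ih =>
        obtain ⟨N, h1, h2⟩ := ih
        obtain ⟨k, hk1, hk2⟩ := hcon N (by omega)
        refine ⟨N + k, ?_, by omega⟩
        have : (i + 1) * T = i * T + T := by ring
        omega
    obtain ⟨N, h1, h2⟩ := hseq (N₀.natAbs + C + 1)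
    have h3 := hupz N
    have h4 : T * (B + 2 * (N₀.natAbs + C + 1)) ≤ T * M.d x (g ^ N • x) :=
      Nat.mul_le_mul_left _ h2
    have h5 : T * (B + 2 * (N₀.natAbs + C + 1)) =
        T * B + 2 * ((N₀.natAbs + C + 1) * T) := by ring
    have h6 : (N₀.natAbs + C + 1) * T = N₀.natAbs * T + T * C + T := by ring
    have h7 : N₀.natAbs ≤ N₀.natAbs * T := Nat.le_mul_of_pos_right _ hT
    omega
  obtain ⟨p, hp, hdp⟩ := M.exists_pt x (g ^ N • x) (M.d x (g ^ N • x) / 2) (by omega)
  have hp' : M.d x p + M.d p (g ^ N • x) = M.d x (g ^ N • x) := hp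
  refine ⟨p, fun k hk => ?_⟩
  have hk' : (-k).natAbs ≤ T := by omega
  have e1 : M.d (g ^ N • x) (g ^ k • g ^ N • x) = M.d x (g ^ k • x) := by
    rw [smul_smul, ← zpow_add, d_zpow hI, show k + N - N = k by ring]
  have e2 : M.d x (g ^ k • g ^ N • x) = M.d x (g ^ (N + k) • x) := by
    rw [smul_smul, ← zpow_add, add_comm]
  have e3 : M.d (g ^ N • x) (g ^ k • x) = M.d x (g ^ (N + -k) • x) := by
    rw [M.symm, d_zpow hI]; rfl
  have key := B3 V M δ hM x (g ^ N • x) (g ^ k • x) (g ^ k • g ^ N • x) p (g ^ k • p) 1 hp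
    (by unfold Btw; rw [hI, hI, hI]; exact hp) (by rw [hI]) (by rw [hI])
    (by have := hBk k hk; omega) (by rw [e1]; have := hBk k hk; omega)
    (by rw [e2]; have := hN2 k hk; omega) (by rw [e3]; have := hN2 (-k) hk'; omega)
  omega

end GMet

end Pool.Agent.Lib.MP_7f190d_al
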