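import Pool.Agent.Lib.MP_7f190d_al.Basic

/-!
# MP_7f190d_al, module GG: guessing geodesics
-/

set_option autoImplicit false

namespace Pool.Agent.Lib.MP_7f190d_al

namespace GMet

variable {V : Type} {M : GMet V} {Lx : V → V → Set V} {h : ℕ}

lemma IsGeod.take {γ : ℕ → V} {u v : V} (hγ : M.IsGeod γ u v) {j : ℕ} (hj : j ≤ M.d u v) :
    M.IsGeod γ u (γ j) := by
  have e := hγ.dist_left hj
  refine ⟨hγ.1, by rw [e], ?_⟩
  intro i k hik hk
  rw [e] at hk
  exact hγ.2.2 i k hik (hk.trans hj)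

lemma IsGeod.drop {γ : ℕ → V} {u v : V} (hγ : M.IsGeod γ u v) {j : ℕ} (hj : j ≤ M.d u v) :
    M.IsGeod (fun k => γ (j + k)) (γ j) v := by
  have e := hγ.dist_right hj
  refine ⟨rfl, ?_, ?_⟩
  · show γ (j + M.d (γ j) v) = v
    rw [e, Nat.add_sub_cancel' hj]
    exact hγ.2.1
  · intro i k hik hk
    rw [e] at hk
    have := hγ.2.2 (j + i) (j + k) (by omega) (by omega)
    simp only [this]
    omega

/-- bisection -/
lemma GG_bisect (hG : GGSys M Lx h) : ∀ (K N : ℕ) (γ : ℕ → V) (z : V), N ≤ 2 ^ K →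
    (∀ i < N, M.d (γ i) (γ (i + 1)) ≤ 1) → z ∈ Lx (γ 0) (γ N) →
    ∃ i ≤ N, M.d z (γ i) ≤ h * (K + 1) := by
  intro K
  induction K with
  | zero =>
    intro N γ z hN hγ hz
    have hd : M.d (γ 0) (γ N) ≤ 1 := by
      rcases Nat.eq_zero_or_pos N with h0 | h0
      · subst h0
        rw [M.self]; omega
      · have : N = 1 := by simp at hN; omega
        subst this
        exact hγ 0 (by omega)
    exact ⟨0, by omega, by have := hG.small _ _ hd z hz; omega⟩
  | succ K ih =>
    intro N γ z hN hγ hz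
    have hpow : 2 ^ (K + 1) = 2 * 2 ^ K := by ring
    have hmul : h * (K + 1 + 1) = h * (K + 1) + h := by ring
    obtain ⟨t, ht, hd⟩ := hG.thin _ _ (γ (N / 2)) z hz
    rcases ht with ht | ht
    · obtain ⟨i, hi, hi'⟩ := ih (N / 2) γ t (by omega) (fun i hi => hγ i (by omega)) ht
      exact ⟨i, by omega, by have := M.tri z t (γ i); omega⟩
    · obtain ⟨i, hi, hi'⟩ := ih (N - N / 2) (fun i => γ (N / 2 + i)) t (by omega)
        (fun i hi => by
          have := hγ (N / 2 + i) (by omega)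
          simpa [add_assoc] using this) (by
          have e : N / 2 + (N - N / 2) = N := by omega
          simpa [e] using ht)
      exact ⟨N / 2 + i, by omega, by have := M.tri z t (γ (N / 2 + i)); omega⟩

/-- the constant -/
def GGt (h : ℕ) : ℕ := 2 ^ (2 * h + 5) + 4 * h + 2

lemma GG_num1 (k : ℕ) (hk : 5 ≤ k) : k * (k + 7) < 2 ^ (k + 1) := by
  induction k, hk using Nat.le_induction with
  | base => norm_num
  | succ k hk ih =>
    have e : 2 ^ (k + 1 + 1) = 2 * 2 ^ (k + 1) := by ring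
    rw [e]
    nlinarith

lemma GG_num (h t : ℕ) (ht : GGt h < t) :
    ∃ K, 4 * t + 4 * h + 2 ≤ 2 ^ K ∧ h * (K + 3) < t := by
  unfold GGt at ht
  obtain ⟨k, hk⟩ : ∃ k, k = Nat.log 2 t := ⟨_, rfl⟩
  have hp : 0 < 2 ^ (2 * h + 5) := by positivity
  have ht0 : t ≠ 0 := by omega
  have h1 : 2 ^ k ≤ t := by rw [hk]; exact Nat.pow_log_le_self 2 ht0
  have h2 : t < 2 ^ (k + 1) := by rw [hk]; exact Nat.lt_pow_succ_log_self (by norm_num) t
  have h3 : 2 * h + 5 ≤ k := by
    rw [hk]
    exact Nat.le_log_of_pow_le (by norm_num) (by omega)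
  refine ⟨k + 4, ?_, ?_⟩
  · have e : 2 ^ (k + 4) = 8 * 2 ^ (k + 1) := by ring
    omega
  · have h4 := GG_num1 k (by omega)
    have e : 2 ^ (k + 1) = 2 * 2 ^ k := by ring
    have h5 : 2 * h * (k + 7) ≤ k * (k + 7) := Nat.mul_le_mul_right _ (by omega)
    have h6 : 2 * h * (k + 7) = 2 * (h * (k + 7)) := by ring
    show h * (k + 7) < t
    rw [h6] at h5
    rw [e] at h4
    generalize h * (k + 7) = a at *
    generalize k * (k + 7) = b at *
    generalize 2 ^ k = c at *
    omega

/-- the sets `Lx u v` are close to geodesics -/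
lemma GG_close (hG : GGSys M Lx h) : GClose M Lx (GGt h) := by
  classical
  -- `P n t`: some configuration of length at most `n` with distance at least `t`
  let P : ℕ → ℕ → Prop := fun n t => ∃ (u v : V) (γ : ℕ → V) (z : V), M.IsGeod γ u v ∧
    M.d u v ≤ n ∧ z ∈ Lx u v ∧ ∀ i ≤ M.d u v, t ≤ M.d z (γ i)
  have hbound : ∀ n t, P n t → t ≤ h * (n + 1) := by
    rintro n t ⟨u, v, γ, z, hγ, hn, hz, hd⟩
    have hz' : z ∈ Lx (γ 0) (γ (M.d u v)) := by rw [hγ.1, hγ.2.1]; exact hz
    obtain ⟨i, hi, hi'⟩ := GG_bisect hG n (M.d u v) γ z (hn.trans Nat.lt_two_pow_self.le)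
      (fun i hi => (hγ.step hi).le) hz'
    have := hd i hi
    omega
  have key : ∀ n t, GGt h < t → ¬ P n t := by
    intro n t₁ ht₁ hP₁
    -- the maximal distance
    obtain ⟨t, htt, hP, hnP⟩ : ∃ t, t₁ ≤ t ∧ P n t ∧ ¬ P n (t + 1) := by
      by_contra hcon
      push Not at hcon
      have : ∀ m, P n (t₁ + m) := by
        intro m
        induction m with
        | zero => exact hP₁
        | succ m ih => exact hcon (t₁ + m) (by omega) ih
      have := hbound n _ (this (h * (n + 1) + 1))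
      omega
    have ht : GGt h < t := by omega
    have hmax : ∀ (u v : V) (γ : ℕ → V) (z : V), M.IsGeod γ u v → M.d u v ≤ n → z ∈ Lx u v →
        ∃ i ≤ M.d u v, M.d z (γ i) ≤ t := by
      intro u v γ z h1 h2 h3
      by_contra hcon
      push Not at hcon
      exact hnP ⟨u, v, γ, z, h1, h2, h3, fun i hi => hcon i hi⟩
    obtain ⟨u, v, γ, z, hγ, hn, hz, hd⟩ := hP
    obtain ⟨i, hi, hi'⟩ := hmax u v γ z hγ hn hz
    set R := 2 * t + 2 * h + 1 with hR
    have hth : 3 * h < t := by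
      unfold GGt at ht
      have hp : 0 < 2 ^ (2 * h + 5) := by positivity
      omega
    -- first cut
    obtain ⟨z₁, hz₁, hd₁⟩ := hG.thin u v (γ (i - R)) z hz
    rcases hz₁ with hz₁ | hz₁
    · by_cases hiR : R ≤ i
      · have hpre := hγ.take (j := i - R) (by omega)
        have el := hγ.dist_left (i := i - R) (by omega)
        obtain ⟨j, hj, hj'⟩ := hmax u (γ (i - R)) γ z₁ hpre (by omega) hz₁
        have e := hγ.2.2 j i (by omega) hi
        have t1 := M.tri (γ j) z₁ (γ i)
        have t2 := M.tri z₁ z (γ i)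
        have s1 := M.symm (γ j) z₁
        have s2 := M.symm z₁ z
        omega
      · have e0 : i - R = 0 := by omega
        rw [e0, hγ.1] at hz₁
        have h1 := hG.small u u (by rw [M.self]; omega) z₁ hz₁
        have h2 := hd 0 (by omega)
        rw [hγ.1] at h2
        have t1 := M.tri z z₁ u
        omega
    -- second cut
    set b := min (i + R) (M.d u v) with hb
    obtain ⟨z₂, hz₂, hd₂⟩ := hG.thin (γ (i - R)) v (γ b) z₁ hz₁
    have hd₁₂ : M.d z z₂ ≤ 2 * h := by have := M.tri z z₁ z₂; omega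
    rcases hz₂ with hz₂ | hz₂
    · obtain ⟨K, hK1, hK2⟩ := GG_num h t ht
      obtain ⟨j, hj, hj'⟩ := GG_bisect hG K (b - (i - R)) (fun k => γ (i - R + k)) z₂ (by omega)
        (fun k hk => by
          have := hγ.step (i := i - R + k) (by omega)
          simp only [← add_assoc]
          omega) (by
          have e : i - R + (b - (i - R)) = b := by omega
          simpa [e] using hz₂)
      have h1 := hd (i - R + j) (by omega)
      have t1 := M.tri z z₂ (γ (i - R + j))
      have e : h * (K + 3) = h * (K + 1) + 2 * h := by ring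
      omega
    · by_cases hiR : i + R ≤ M.d u v
      · have hbe : b = i + R := by omega
        have hsuf := hγ.drop (j := b) (by omega)
        have er := hγ.dist_right (i := b) (by omega)
        obtain ⟨j, hj, hj'⟩ := hmax (γ b) v (fun k => γ (b + k)) z₂ hsuf (by omega) hz₂
        have e := hγ.2.2 i (b + j) (by omega) (by omega)
        have t1 := M.tri (γ i) z₂ (γ (b + j))
        have t2 := M.tri (γ i) z z₂
        have s1 := M.symm (γ i) z
        omega
      · have hbe : b = M.d u v := by omega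
        rw [hbe, hγ.2.1] at hz₂
        have h1 := hG.small v v (by rw [M.self]; omega) z₂ hz₂
        have h2 := hd (M.d u v) le_rfl
        rw [hγ.2.1] at h2
        have t1 := M.tri z z₂ v
        omega
  intro u v γ hγ z hz
  by_contra hcon
  push Not at hcon
  exact key (M.d u v) (GGt h + 1) (by omega) ⟨u, v, γ, z, hγ, le_rfl, hz, fun i hi => hcon i hi⟩

/-- geodesics are close to the sets `Lx u v` -/
lemma GG_rev (hG : GGSys M Lx h) {u v : V} {γ : ℕ → V} (hγ : M.IsGeod γ u v) {r : ℕ}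
    (hr : r ≤ M.d u v) : ∃ b ∈ Lx u v, M.d (γ r) b ≤ 3 * GGt h + h := by
  have hc := GG_close hG
  by_cases hQ : ∃ j ≤ r, M.d v (γ j) ≤ GGt h
  · obtain ⟨j, hj, hj'⟩ := hQ
    refine ⟨v, hG.right u v, ?_⟩
    have e1 := hγ.dist_right hr
    have e2 := hγ.dist_right (i := j) (by omega)
    have s := M.symm v (γ j)
    omega
  · obtain ⟨b, hb, c, hc', ⟨j, hj, hj'⟩, hQc, hbc⟩ := hG.conn u v
      (fun x => ∃ j ≤ r, M.d x (γ j) ≤ GGt h) ⟨0, by omega, by rw [hγ.1, M.self]; omega⟩ hQ
    refine ⟨b, hb, ?_⟩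
    obtain ⟨k, hk, hk'⟩ := hc u v γ hγ c hc'
    have hrk : r < k := by
      by_contra hcon
      exact hQc ⟨k, by omega, hk'⟩
    have e1 := hγ.2.2 j k (by omega) hk
    have e2 := hγ.2.2 j r hj hr
    have t1 := M.tri (γ j) b (γ k)
    have t2 := M.tri b c (γ k)
    have t3 := M.tri (γ r) (γ j) b
    have s1 := M.symm (γ j) b
    have s2 := M.symm (γ r) (γ j)
    omega

/-- GG -/
theorem GG : GGStatement := by
  intro h
  refine ⟨GGt h, 2 * (4 * GGt h + 2 * h) + 2, ?_⟩
  intro V M Lx hG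
  refine ⟨B5 V M (4 * GGt h + 2 * h) ?_, GG_close hG⟩
  intro x y z w hw
  obtain ⟨γ, hγ, hγw⟩ := B1 V M x w y hw
  have hw' : M.d x w + M.d w y = M.d x y := hw
  obtain ⟨b, hb, hbd⟩ := GG_rev hG hγ (r := M.d x w) (by omega)
  rw [hγw] at hbd
  obtain ⟨t, ht, htd⟩ := hG.thin x y z b hb
  rcases ht with ht | ht
  · obtain ⟨η, hη⟩ := M.exists_isGeod x z
    obtain ⟨i, hi, hi'⟩ := GG_close hG x z η hη t ht
    refine ⟨η i, Or.inl (hη.btw hi), ?_⟩
    have t1 := M.tri w b (η i)
    have t2 := M.tri b t (η i)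
    omega
  · obtain ⟨η, hη⟩ := M.exists_isGeod z y
    obtain ⟨i, hi, hi'⟩ := GG_close hG z y η hη t ht
    refine ⟨η i, Or.inr (hη.btw hi), ?_⟩
    have t1 := M.tri w b (η i)
    have t2 := M.tri b t (η i)
    omega

end GMet

end Pool.Agent.Lib.MP_7f190d_al
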